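import Pool.Agent.H9.CD.Bridge
import Pool.Agent.H47.CD.RegMain

namespace Pool.Agent.Results.MP_375bfa_co.CharneyDavis

open Pool.Agent.H9.CD

/-- The flag complex inequality with Coxeter edge weights. `M` is a Coxeter matrix on the finite
set `V` (the edge weights, `0` meaning infinity); its flag complex `Simp M` is a generalized
homology sphere of dimension `2 n - 1` and all groups `W_σ` are finite. Then
`(-1)^n ω(S)` is nonnegative. -/
theorem result : ∀ (V : Type) [Fintype V] [LinearOrder V] (M : CoxeterMatrix V) (n : ℕ),
    (∀ σ : Finset V, Simp M σ → Finite (CoxGroup M σ)) →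
    HomologySphere (Simp M) (2 * n) →
    0 ≤ (-1 : ℚ) ^ n * omega M := by
  intro V _ _ M n hfin hS
  exact weighted_of (@Pool.Agent.H47.CD.ra) V M n hfin hS

end Pool.Agent.Results.MP_375bfa_co.CharneyDavis
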